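import Mathlib

namespace Pool.Agent.Results.MP_7230e4_co.Block

open Module Submodule

variable {F : Type} [Field F] {n : ℕ}

/-- `Y` is a flat of the geometry with point set `S`. -/
def Flat (S Y : Set (Fin n → F)) : Prop := Y ⊆ S ∧ ∀ x ∈ S, x ∈ span F Y → x ∈ Y

/-- `Y` has a tangent of codimension `k`. -/
def Tang (S : Set (Fin n → F)) (k : ℕ) (Y : Set (Fin n → F)) : Prop :=
  ∃ U : Submodule F (Fin n → F), finrank F U + k = n ∧ ∀ x ∈ S, x ∈ U ↔ x ∈ Y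

/-- rank of a point set -/
noncomputable def rk (Y : Set (Fin n → F)) : ℕ := finrank F (span F Y)

/-- `S` is a spanning point set of the projective space. -/
def Geom (S : Set (Fin n → F)) : Prop :=
  0 ∉ S ∧ (∀ x ∈ S, ∀ y ∈ S, ∀ c : F, x = c • y → x = y) ∧ span F S = ⊤

/-- `X` is a modular copoint. -/
def ModCo (S X : Set (Fin n → F)) : Prop :=
  Flat S X ∧ rk X + 1 = n ∧ ∀ L, Flat S L → rk L = 2 → (L ∩ X).Nonempty

theorem tang_iff (S Y : Set (Fin n → F)) :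
    Tang S 1 Y ↔ ∃ g : Fin n → F, g ≠ 0 ∧ ∀ x ∈ S, g ⬝ᵥ x = 0 ↔ x ∈ Y := by
  constructor
  · rintro ⟨U, hU, h⟩
    have hlt : U < ⊤ := by
      rw [lt_top_iff_ne_top]
      rintro rfl
      simp at hU
    obtain ⟨f, hf, hle⟩ := U.exists_le_ker_of_lt_top hlt
    have h1 := Module.Dual.finrank_ker_add_one_of_ne_zero hf
    rw [Module.finrank_fin_fun] at h1
    have e : U = LinearMap.ker f := eq_of_le_of_finrank_eq hle (by omega)
    have e2 : ∀ x, (fun i => f fun j => if i = j then 1 else 0) ⬝ᵥ x = f x := fun x => by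
      rw [LinearMap.pi_apply_eq_sum_univ f x, dotProduct_comm]; rfl
    refine ⟨fun i => f fun j => if i = j then 1 else 0, fun h0 => hf ?_, fun x hx => ?_⟩
    · ext1 i
      ext
      rw [LinearMap.comp_apply, ← e2, h0]; simp
    · rw [e2, ← h x hx, e, LinearMap.mem_ker]
  · rintro ⟨g, hg, h⟩
    have hf : dotProductBilin F F g ≠ 0 := fun h0 => hg (funext fun i => by
      have := LinearMap.congr_fun h0 (Pi.single i 1)
      simpa using this)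
    have h1 := Module.Dual.finrank_ker_add_one_of_ne_zero hf
    rw [Module.finrank_fin_fun] at h1
    exact ⟨_, h1, fun x hx => by rw [← h x hx, LinearMap.mem_ker]; rfl⟩

instance : Fact (Nat.Prime 7) := ⟨by norm_num⟩

def pt (m : ℕ) (i : Fin 5) : ZMod 7 := (m / 7 ^ i.val : ℕ)

def LX : List ℕ := [343, 49, 1421, 2107, 7, 1379, 2065, 301, 1, 1373, 2059, 295, 204, 71, 36,
  232, 918, 1261, 43]

def LS : List ℕ := [2401, 2402, 2408, 2450, 2744, 3430, 2473] ++ LX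

def tg (m : ℕ) : ℕ := (([(2401, 1492), (2402, 15898), (2408, 11096), (2450, 13497), (2744, 8695),
  (3430, 6294), (2473, 3893), (343, 2563), (49, 5510), (1421, 11873), (2107, 8415), (7, 8037),
  (1379, 3641), (2065, 5650), (301, 3886), (1, 11767), (1373, 4278), (2059, 2955), (295, 7960),
  (204, 13693), (71, 5706), (36, 5664), (232, 11285), (918, 7022), (1261, 3935),
  (43, 8142)] : List (ℕ × ℕ)).lookup m).getD 0

def dt (a b c d e : ZMod 7) (m : ℕ) : ZMod 7 :=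
  a * pt m 0 + b * pt m 1 + c * pt m 2 + d * pt m 3 + e * pt m 4

theorem dt_eq (g : Fin 5 → ZMod 7) (m : ℕ) : g ⬝ᵥ pt m = dt (g 0) (g 1) (g 2) (g 3) (g 4) m := by
  simp [dotProduct, Fin.sum_univ_five, dt]

theorem k1 : ∀ a b c d e : ZMod 7, ∃ m ∈ LS, dt a b c d e m = 0 := by decide +kernel

theorem k2 : ∀ m ∈ LS, pt (tg m) ≠ 0 ∧ ∀ l ∈ LS, pt (tg m) ⬝ᵥ pt l = 0 ↔ pt l = pt m := by
  decide +kernel

theorem k3 : ∀ a c d : ZMod 7, dt a 0 c d 0 49 = 0 → dt a 0 c d 0 2059 = 0 → ∀ b e : ZMod 7,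
    ∃ m ∈ LS, dt a b c d e m = 0 ∧ pt m ≠ pt 49 ∧ pt m ≠ pt 2059 := by decide +kernel

theorem k4 : ∀ a ∈ LS, pt a ≠ 0 ∧ ∀ b ∈ LS, ∀ c : ZMod 7, pt a = c • pt b → pt a = pt b := by
  decide +kernel

theorem k5 : ∀ a ∈ LS, a ∈ LX ∨ ∀ b ∈ LS, b ∈ LX ∨ a = b ∨
    ∃ x ∈ LX, ∃ c : ZMod 7, pt x = c • (pt a - pt b) := by decide +kernel

theorem k6 : ∀ a b : ZMod 7, ∀ m ∈ LS, a • pt 49 + b • pt 2059 = pt m →
    pt m = pt 49 ∨ pt m = pt 2059 := by decide +kernel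

theorem k7 : (∀ m ∈ LX, m ∈ LS ∧ pt m 4 = 0) ∧ ∀ m ∈ LS, pt m 4 = 0 → m ∈ LX := by
  decide +kernel

theorem dec (x : Fin 5 → ZMod 7) :
    x = x 0 • pt 1 + x 1 • pt 7 + x 2 • pt 49 + x 3 • pt 343 + x 4 • pt 2401 := by
  have h : ∀ i j : Fin 5, pt (7 ^ i.val) j = if i = j then 1 else 0 := by decide +kernel
  have h0 := h 0
  have h1 := h 1
  have h2 := h 2
  have h3 := h 3
  have h4 := h 4
  norm_num at h0 h1 h2 h3 h4
  funext j
  simp only [Pi.add_apply, Pi.smul_apply, h0, h1, h2, h3, h4]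
  fin_cases j <;> simp

theorem spanX : span (ZMod 7) (pt '' {m | m ∈ LX}) =
    LinearMap.ker (LinearMap.proj 4 : (Fin 5 → ZMod 7) →ₗ[ZMod 7] ZMod 7) := by
  apply le_antisymm
  · rw [span_le]
    rintro _ ⟨m, hm, rfl⟩
    exact (k7.1 m hm).2
  · intro x hx
    have hx' : x 4 = 0 := hx
    have m : ∀ a ∈ LX, pt a ∈ span (ZMod 7) (pt '' {m | m ∈ LX}) := fun a ha =>
      subset_span ⟨a, ha, rfl⟩
    rw [dec x, hx', zero_smul, add_zero]
    exact add_mem (add_mem (add_mem (smul_mem _ _ (m 1 (by decide))) (smul_mem _ _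
      (m 7 (by decide)))) (smul_mem _ _ (m 49 (by decide)))) (smul_mem _ _ (m 343 (by decide)))

theorem result : ∃ S X : Set (Fin 5 → ZMod 7), Geom S ∧ ModCo S X ∧
    ¬ Tang S 1 ∅ ∧ (∀ x ∈ S, Tang S 1 {x}) ∧
    ∃ Y, Flat S Y ∧ Y.Nonempty ∧ rk Y + 1 ≤ 5 ∧ ¬ Tang S 1 Y := by
  refine ⟨pt '' {m | m ∈ LS}, pt '' {m | m ∈ LX}, ⟨?_, ?_, ?_⟩, ⟨⟨?_, ?_⟩, ?_, ?_⟩, ?_, ?_,
    {pt 49, pt 2059}, ⟨?_, ?_⟩, ⟨_, Or.inl rfl⟩, ?_, ?_⟩
  · rintro ⟨m, hm, e⟩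
    exact (k4 m hm).1 e
  · rintro _ ⟨a, ha, rfl⟩ _ ⟨b, hb, rfl⟩ c
    exact (k4 a ha).2 b hb c
  · rw [eq_top_iff]
    intro x _
    have m : ∀ a ∈ LS, pt a ∈ span (ZMod 7) (pt '' {m | m ∈ LS}) := fun a ha =>
      subset_span ⟨a, ha, rfl⟩
    rw [dec x]
    exact add_mem (add_mem (add_mem (add_mem (smul_mem _ _ (m 1 (by decide))) (smul_mem _ _
      (m 7 (by decide)))) (smul_mem _ _ (m 49 (by decide)))) (smul_mem _ _ (m 343 (by decide))))
      (smul_mem _ _ (m 2401 (by decide)))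
  · rintro _ ⟨m, hm, rfl⟩
    exact ⟨m, (k7.1 m hm).1, rfl⟩
  · rintro _ ⟨m, hm, rfl⟩ h
    rw [spanX] at h
    exact ⟨m, k7.2 m hm h, rfl⟩
  · rw [rk, spanX]
    have hf : (LinearMap.proj 4 : (Fin 5 → ZMod 7) →ₗ[ZMod 7] ZMod 7) ≠ 0 := fun h0 => by
      have := LinearMap.congr_fun h0 1
      simp at this
    have h1 := Module.Dual.finrank_ker_add_one_of_ne_zero hf
    rwa [Module.finrank_fin_fun] at h1
  · intro L hL h2
    unfold rk at h2
    have hn : L.Nontrivial := by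
      by_contra hh
      rcases (Set.not_nontrivial_iff.1 hh).eq_empty_or_singleton with rfl | ⟨x, rfl⟩
      · rw [span_empty, finrank_bot] at h2
        omega
      · have := finrank_span_le_card (R := ZMod 7) ({x} : Set (Fin 5 → ZMod 7))
        simp at this
        omega
    obtain ⟨x, hx, y, hy, hxy⟩ := hn
    obtain ⟨a, ha, rfl⟩ := hL.1 hx
    obtain ⟨b, hb, rfl⟩ := hL.1 hy
    rcases k5 a ha with h | h
    · exact ⟨_, hx, a, h, rfl⟩
    · rcases h b hb with h | h | ⟨z, hz, c, e⟩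
      · exact ⟨_, hy, b, h, rfl⟩
      · exact absurd (congrArg pt h) hxy
      · refine ⟨pt z, hL.2 _ ⟨z, (k7.1 z hz).1, rfl⟩ ?_, z, hz, rfl⟩
        rw [e]
        exact smul_mem _ _ (sub_mem (subset_span hx) (subset_span hy))
  · rw [tang_iff]
    rintro ⟨g, -, h⟩
    obtain ⟨m, hm, e⟩ := k1 (g 0) (g 1) (g 2) (g 3) (g 4)
    exact (h _ ⟨m, hm, rfl⟩).1 ((dt_eq g m).trans e)
  · rintro _ ⟨m, hm, rfl⟩
    rw [tang_iff]
    refine ⟨_, (k2 m hm).1, ?_⟩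
    rintro _ ⟨l, hl, rfl⟩
    exact (k2 m hm).2 l hl
  · rintro _ (rfl | rfl)
    · exact ⟨49, by decide, rfl⟩
    · exact ⟨2059, by decide, rfl⟩
  · rintro _ ⟨m, hm, rfl⟩ h
    obtain ⟨a, b, e⟩ := mem_span_pair.1 h
    exact k6 a b m hm e
  · have := finrank_span_le_card (R := ZMod 7) ({pt 49, pt 2059} : Set (Fin 5 → ZMod 7))
    have h2 : ({pt 49, pt 2059} : Set (Fin 5 → ZMod 7)).toFinset.card ≤ 2 := by
      rw [Set.toFinset_insert, Set.toFinset_singleton]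
      exact Finset.card_le_two
    unfold rk
    omega
  · rw [tang_iff]
    rintro ⟨g, -, h⟩
    have h1 := (h _ ⟨49, by decide, rfl⟩).2 (Or.inl rfl)
    have h2 := (h _ ⟨2059, by decide, rfl⟩).2 (Or.inr rfl)
    rw [dt_eq] at h1 h2
    have z : pt 49 1 = 0 ∧ pt 49 4 = 0 ∧ pt 2059 1 = 0 ∧ pt 2059 4 = 0 := by decide +kernel
    obtain ⟨m, hm, e, n1, n2⟩ := k3 (g 0) (g 2) (g 3)
      (by simpa [dt, z] using h1) (by simpa [dt, z] using h2) (g 1) (g 4)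
    exact ((h _ ⟨m, hm, rfl⟩).1 ((dt_eq g m).trans e)).elim n1 n2

end Pool.Agent.Results.MP_7230e4_co.Block
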